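import Pool.Agent.Helper40.RBC.RAVL
import Pool.Agent.Helper97.HS.MOMP

/-!
# RBC, packet RVP: positivity of the volume of `rho h + P h`
-/

open Complex Metric Set Filter Topology MeasureTheory
open scoped ContDiff ComplexConjugate ComplexOrder Manifold Matrix

namespace Pool.Agent.Helper40.RBC

open Pool.Agent.Helper95.Lin Pool.Agent.Helper16.Abund Pool.Agent.Helper92.Orb
  Pool.Agent.Helper10.SP Pool.Agent.Helper95.RK Pool.Agent.Helper57.HS
  Pool.Agent.Helper15.HS Pool.Agent.Helper15.GS Pool.Agent.Helper57.RBC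
  Pool.Agent.Helper10.RBC Pool.Agent.Helper95.HS

universe u v

theorem ketHer {n : ℕ} {T : Set (Cn n)} {G : Type u} [Group G] {R : G → Cn n → Cn n → Prop}
    {H : Cn n → Matrix (Fin n) (Fin n) ℂ} (h : KEt T R H) : HerT T R H :=
  ⟨h.posDef, h.smooth, h.inv⟩

/-- Continuity of matrix fields from the entries. -/
theorem contM {n : ℕ} {T : Set (Cn n)} {X : Cn n → Matrix (Fin n) (Fin n) ℂ}
    (h : ∀ i j, ContinuousOn (fun x => X x i j) T) : ContinuousOn X T :=
  continuousOn_pi.2 fun i => continuousOn_pi.2 fun j => h i j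

theorem contDetRe {n : ℕ} {α : Type*} [TopologicalSpace α] {S : Set α}
    {X : α → Matrix (Fin n) (Fin n) ℂ} (h : ContinuousOn X S) :
    ContinuousOn (fun x => (X x).det.re) S :=
  Complex.continuous_re.comp_continuousOn (continuous_id.matrix_det.comp_continuousOn h)

theorem compF {n : ℕ} {T : Set (Cn n)} {F : Cn n → Matrix (Fin n) (Fin n) ℂ → ℝ}
    (hF : ContinuousOn (fun q : Cn n × Matrix (Fin n) (Fin n) ℂ => F q.1 q.2) (T ×ˢ univ))
    {B : Cn n → Matrix (Fin n) (Fin n) ℂ} (hB : ContinuousOn B T) :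
    ContinuousOn (fun x => F x (B x)) T := by
  have h1 : ContinuousOn (fun x => (x, B x)) T := continuousOn_id.prodMk hB
  exact hF.comp h1 fun x hx => ⟨hx, mem_univ _⟩

theorem contBep {n : ℕ} {T : Set (Cn n)} {h Q : Cn n → Matrix (Fin n) (Fin n) ℂ} (ε : ℝ)
    (hh : ContinuousOn h T) (hQ : ContinuousOn (fun x => (Q x)⁻¹) T) :
    ContinuousOn (fun x => Bep ε h Q x) T := by
  have h1 : ContinuousOn (fun x => h x * (Q x)⁻¹) T := hh.mul hQ
  exact h1.const_smul (ε : ℂ)

theorem exF {n : ℕ} {T : Set (Cn n)} {P A : Cn n → Matrix (Fin n) (Fin n) ℂ} {α : ℝ}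
    (hPc : ContinuousOn P T) (hPA : ∀ x ∈ T, P x * A x = A x ∧ A x * P x = A x)
    (hnd : ∀ x ∈ T, α ≤ (A x + (1 - P x)).det.re) :
    ∃ F : Cn n → Matrix (Fin n) (Fin n) ℂ → ℝ,
      ContinuousOn (fun q : Cn n × Matrix (Fin n) (Fin n) ℂ => F q.1 q.2) (T ×ˢ univ) ∧
      (∀ x ∈ T, F x (A x) = α) ∧
      ∀ x X, F x X ≤ (P x * X * P x + (1 - P x)).det.re := by
  refine ⟨fun x X => min α ((P x * X * P x + (1 - P x)).det.re), ?_, ?_, ?_⟩
  · have h1 : ContinuousOn (fun q : Cn n × Matrix (Fin n) (Fin n) ℂ => P q.1) (T ×ˢ univ) :=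
      hPc.comp continuous_fst.continuousOn fun q hq => hq.1
    have h2 : ContinuousOn (fun q : Cn n × Matrix (Fin n) (Fin n) ℂ => q.2) (T ×ˢ univ) :=
      continuous_snd.continuousOn
    have h3 : ContinuousOn (fun q : Cn n × Matrix (Fin n) (Fin n) ℂ =>
        P q.1 * q.2 * P q.1 + (1 - P q.1)) (T ×ˢ univ) :=
      ((h1.mul h2).mul h1).add (continuousOn_const.sub h1)
    exact continuousOn_const.inf (contDetRe h3)
  · intro x hx
    have h1 := hPA x hx
    show min α ((P x * A x * P x + (1 - P x)).det.re) = α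
    rw [h1.1, h1.2]
    exact min_eq_left (hnd x hx)
  · intro x X
    exact min_le_right _ _

/-- Continuity of the volume in two real parameters, along sequences. -/
theorem volLim {n : ℕ} {T : Set (Cn n)} (hT : IsOpen T) {κ : Cn n → ℝ} (hκ : TestF T κ)
    {X Y Z : Cn n → Matrix (Fin n) (Fin n) ℂ} (hX : ContinuousOn X T) (hY : ContinuousOn Y T)
    (hZ : ContinuousOn Z T) (a s : ℕ → ℝ) (ha : Tendsto a atTop (𝓝 1))
    (hs : Tendsto s atTop (𝓝 0)) :
    Tendsto (fun j => ∫ x in T, κ x * ((a j : ℂ) • X x + (s j : ℂ) • Y x + Z x).det.re) atTop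
      (𝓝 (∫ x in T, κ x * (X x + Z x).det.re)) := by
  set C : Set (Cn n) := tsupport κ with hCdef
  have hC : IsCompact C := hκ.2.1
  have hCT : C ⊆ T := hκ.2.2
  have hcont : ContinuousOn (fun q : (ℝ × ℝ) × Cn n =>
      κ q.2 * ((q.1.1 : ℂ) • X q.2 + (q.1.2 : ℂ) • Y q.2 + Z q.2).det.re)
      ((Icc 0 2 ×ˢ Icc (-1) 1) ×ˢ C) := by
    have h2 : ContinuousOn (fun q : (ℝ × ℝ) × Cn n => q.2) ((Icc 0 2 ×ˢ Icc (-1) 1) ×ˢ C) :=
      continuous_snd.continuousOn
    have hm : MapsTo (fun q : (ℝ × ℝ) × Cn n => q.2) ((Icc 0 2 ×ˢ Icc (-1) 1) ×ˢ C) T :=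
      fun q hq => hCT hq.2
    have hXq : ContinuousOn (fun q : (ℝ × ℝ) × Cn n => X q.2) ((Icc 0 2 ×ˢ Icc (-1) 1) ×ˢ C) :=
      hX.comp h2 hm
    have hYq : ContinuousOn (fun q : (ℝ × ℝ) × Cn n => Y q.2) ((Icc 0 2 ×ˢ Icc (-1) 1) ×ˢ C) :=
      hY.comp h2 hm
    have hZq : ContinuousOn (fun q : (ℝ × ℝ) × Cn n => Z q.2) ((Icc 0 2 ×ˢ Icc (-1) 1) ×ˢ C) :=
      hZ.comp h2 hm
    have h3 : ContinuousOn (fun q : (ℝ × ℝ) × Cn n => κ q.2) ((Icc 0 2 ×ˢ Icc (-1) 1) ×ˢ C) :=
      (hκ.1.continuous.comp continuous_snd).continuousOn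
    have ha1 : ContinuousOn (fun q : (ℝ × ℝ) × Cn n => (q.1.1 : ℂ))
        ((Icc 0 2 ×ˢ Icc (-1) 1) ×ˢ C) := by
      apply Continuous.continuousOn
      exact Complex.continuous_ofReal.comp (continuous_fst.comp continuous_fst)
    have ha2 : ContinuousOn (fun q : (ℝ × ℝ) × Cn n => (q.1.2 : ℂ))
        ((Icc 0 2 ×ˢ Icc (-1) 1) ×ˢ C) := by
      apply Continuous.continuousOn
      exact Complex.continuous_ofReal.comp (continuous_snd.comp continuous_fst)
    exact h3.mul (contDetRe (((ha1.smul hXq).add (ha2.smul hYq)).add hZq))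
  obtain ⟨B, hB⟩ := ((isCompact_Icc.prod isCompact_Icc).prod hC).exists_bound_of_continuousOn hcont
  refine MeasureTheory.tendsto_integral_filter_of_dominated_convergence
    (C.indicator fun _ => B) ?_ ?_ ?_ ?_
  · refine Eventually.of_forall fun j => ?_
    have h0 : ContinuousOn (fun x => (a j : ℂ) • X x + (s j : ℂ) • Y x + Z x) T :=
      ((hX.const_smul (a j : ℂ)).add (hY.const_smul (s j : ℂ))).add hZ
    have : IntegrableOn (fun x => κ x * ((a j : ℂ) • X x + (s j : ℂ) • Y x + Z x).det.re) T :=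
      intk hT hκ (contDetRe h0)
    exact this.aestronglyMeasurable
  · have e1 : ∀ᶠ j in atTop, a j ∈ Icc (0 : ℝ) 2 :=
      ha.eventually (Icc_mem_nhds (by norm_num) (by norm_num))
    have e2 : ∀ᶠ j in atTop, s j ∈ Icc (-1 : ℝ) 1 :=
      hs.eventually (Icc_mem_nhds (by norm_num) (by norm_num))
    filter_upwards [e1, e2] with j h1 h2
    refine ae_of_all _ fun x => ?_
    by_cases hx : x ∈ C
    · rw [indicator_of_mem hx]
      exact hB ((a j, s j), x) ⟨⟨h1, h2⟩, hx⟩
    · rw [indicator_of_notMem hx]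
      have hk0 : κ x = 0 := image_eq_zero_of_notMem_tsupport hx
      simp [hk0]
  · have h1 : IntegrableOn (fun _ : Cn n => B) C := by
      exact continuousOn_const.integrableOn_compact hC
    exact ((integrable_indicator_iff hC.measurableSet).2 h1).mono_measure Measure.restrict_le_self
  · refine ae_of_all _ fun x => ?_
    have hlim : Tendsto (fun j => (a j : ℂ) • X x + (s j : ℂ) • Y x + Z x) atTop
        (𝓝 (((1 : ℝ) : ℂ) • X x + ((0 : ℝ) : ℂ) • Y x + Z x)) :=
      (((Complex.continuous_ofReal.tendsto 1).comp ha).smul_const (X x) |>.add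
        (((Complex.continuous_ofReal.tendsto 0).comp hs).smul_const (Y x))).add_const (Z x)
    have hd : Tendsto (fun j => ((a j : ℂ) • X x + (s j : ℂ) • Y x + Z x).det.re) atTop
        (𝓝 (((1 : ℝ) : ℂ) • X x + ((0 : ℝ) : ℂ) • Y x + Z x).det.re) :=
      ((Complex.continuous_re.comp continuous_id.matrix_det).tendsto _).comp hlim
    have h1 : ((1 : ℝ) : ℂ) • X x + ((0 : ℝ) : ℂ) • Y x + Z x = X x + Z x := by
      simp
    rw [h1] at hd
    exact hd.const_mul (κ x)

/-- RVP. -/
theorem rvp (hRDP : S_RDP) (hRLV : S_RLV.{u}) (hRAVL : S_RAVL.{u}) (hMOMG : S_MOMG.{u})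
    (hRHOI : S_RHOI.{u}) (hNULL0 : S_NULL0.{u}) (hDETI : S_DETI.{u}) : S_RVP.{u} := by
  intro n T G _ R H h hD κ hκ k p hp0 hV r P A ε N φ H' Q hL hkr hchf hinv
  have hT : IsOpen T := hD.ket.et.isOpen
  have hte := hκ.test
  obtain ⟨α, hα, hnd⟩ := hL.nd
  have hPc : ContinuousOn P T := contM hL.cP
  have hhc : ContinuousOn h T := contM fun i j => (hD.her.smooth i j).continuousOn
  have hHc : ContinuousOn H T := contM fun i j => (hD.ket.smooth i j).continuousOn
  have hβc : ContinuousOn (fun x => P x * h x) T := hPc.mul hhc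
  -- the function F
  obtain ⟨F, hFc, hFA, hFle⟩ := exF hPc hL.PA hnd
  have hav := hRAVL T R H h hD κ hκ r P A ε N φ H' Q hL F hFc α α
    (fun x hx => ⟨(hFA x hx).ge, (hFA x hx).le⟩) (α / 2) (by linarith)
  -- limits
  have haL : Tendsto (fun j => 1 + ε j * N j) atTop (𝓝 1) := by
    simpa using hL.limN.const_add 1
  have hsL : Tendsto (fun j => ε j / (1 + ε j * N j)) atTop (𝓝 0) := by
    have h0 := hL.lim.div haL one_ne_zero
    rw [zero_div] at h0
    exact h0
  have hpL : Tendsto (fun j => p.eval (ε j / (1 + ε j * N j))) atTop (𝓝 (p.eval 0)) :=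
    (p.continuous.tendsto 0).comp hsL
  have hev1 : ∀ᶠ j in atTop, 1 + ε j * N j < 2 := haL.eventually_lt_const (by norm_num)
  have hev2 : ∀ᶠ j in atTop, ε j < 1 := hL.lim.eventually_lt_const (by norm_num)
  have hev3 : ∀ᶠ j in atTop, p.eval 0 / 2 < p.eval (ε j / (1 + ε j * N j)) :=
    hpL.eventually_const_lt (by linarith)
  set c : ℝ := p.eval 0 / 2 * (1 / 2) ^ k * (α / 2) with hc
  have hcpos : 0 < c := by positivity
  have hlow : ∀ᶠ j in atTop, c ≤ ∫ x in T, κ x * (Q j x + P x * h x).det.re := by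
    filter_upwards [hav, hev1, hev2, hev3] with j hj h1 h2 h3
    have hεj := hL.eps j
    have hNj := (hL.fam j).nn
    have hkQ : KEt T R (Q j) := (hL.tke j).ket
    obtain ⟨hVq, -⟩ := hNULL0 T R (Q j) hkQ κ hκ
    have hDQ := hDETI T R (Q j) hkQ
    have hdQ : ContinuousOn (fun x => (Q j x).det.re) T := hDQ.2.1.continuousOn
    have hQc : ContinuousOn (Q j) T := contM fun i j' => (hkQ.smooth i j').continuousOn
    have hQi : ContinuousOn (fun x => (Q j x)⁻¹) T :=
      contM fun i j' => (hDQ.2.2.1 i j').continuousOn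
    have hBc : ContinuousOn (fun x => Bep (ε j) h (Q j) x) T := contBep (ε j) hhc hQi
    have hFB : ContinuousOn (fun x => F x (Bep (ε j) h (Q j) x)) T := compF hFc hBc
    -- volume
    have ha1 : 1 ≤ 1 + ε j * N j := by
      have : 0 ≤ ε j * N j := mul_nonneg hεj.le hNj
      linarith
    have hvol : vol T κ (Q j) = (1 + ε j * N j) ^ n *
        ((ε j / (1 + ε j * N j)) ^ k * p.eval (ε j / (1 + ε j * N j))) := by
      have h4 := (hRLV T R H hD.ket κ hκ (ε j) (N j) (φ j) (H' j) (Q j) hεj (hL.fam j)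
        (hL.tke j)).2 0
      rw [add_zero] at h4
      rw [← hV, ← h4]
      unfold vol
      refine setIntegral_congr_fun hT.measurableSet fun x _ => ?_
      simp
    have hvol2 : ε j ^ r * (p.eval 0 / 2 * (1 / 2) ^ k) ≤ vol T κ (Q j) := by
      rw [hvol]
      have e1 : (1 : ℝ) ≤ (1 + ε j * N j) ^ n := one_le_pow₀ ha1
      have e2 : ε j / 2 ≤ ε j / (1 + ε j * N j) :=
        div_le_div_of_nonneg_left hεj.le (by linarith) h1.le
      have e3 : (ε j / 2) ^ k ≤ (ε j / (1 + ε j * N j)) ^ k :=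
        pow_le_pow_left₀ (by positivity) e2 k
      have e4 : ε j ^ r ≤ ε j ^ k := pow_le_pow_of_le_one hεj.le h2.le hkr
      have e5 : ε j ^ r * (1 / 2) ^ k ≤ (ε j / (1 + ε j * N j)) ^ k := by
        refine le_trans ?_ e3
        have e8 : (ε j / 2) ^ k = ε j ^ k * (1 / 2) ^ k := by
          rw [← mul_pow]
          congr 1
          ring
        rw [e8]
        exact mul_le_mul_of_nonneg_right e4 (by positivity)
      have e6 : (ε j ^ r * (1 / 2) ^ k) * (p.eval 0 / 2) ≤
          (ε j / (1 + ε j * N j)) ^ k * p.eval (ε j / (1 + ε j * N j)) :=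
        mul_le_mul e5 h3.le (by linarith) (by positivity)
      have e7 : 0 ≤ (ε j / (1 + ε j * N j)) ^ k * p.eval (ε j / (1 + ε j * N j)) :=
        le_trans (by positivity) e6
      calc ε j ^ r * (p.eval 0 / 2 * (1 / 2) ^ k)
          = (ε j ^ r * (1 / 2) ^ k) * (p.eval 0 / 2) := by ring
        _ ≤ _ := e6
        _ ≤ _ := le_mul_of_one_le_left e7 e1
    -- the average
    have hden : itg T κ (Q j) (fun _ => 1) = vol T κ (Q j) := by
      unfold itg vol
      simp
    have hnum : α / 2 * vol T κ (Q j) ≤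
        ∫ x in T, κ x * (Q j x).det.re * F x (Bep (ε j) h (Q j) x) := by
      have h5 := hj.1
      unfold avE at h5
      rw [hden, le_div_iff₀ hVq] at h5
      have h6 : α - α / 2 = α / 2 := by ring
      rw [h6] at h5
      exact h5
    -- the pointwise inequality
    have hpt : ∀ x ∈ T, (1 / ε j) ^ r * (κ x * (Q j x).det.re * F x (Bep (ε j) h (Q j) x)) ≤
        κ x * (Q j x + P x * h x).det.re := by
      intro x hx
      have h7 := hRDP r (Q j x) (h x) (P x) (Bep (ε j) h (Q j) x) (ε j) (hkQ.posDef x hx)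
        (hD.her.posDef x hx) (hL.proj x hx) (hL.herm x hx) (hL.tr x hx) hεj rfl
      have h8 := h7.2 (1 / ε j) (by positivity)
      have h9 : ((1 / ε j * ε j : ℝ) : ℂ) = 1 := by
        rw [one_div_mul_cancel hεj.ne']
        simp
      rw [h9, one_smul] at h8
      have hdpos : 0 < (Q j x).det.re := (hDQ.1 x hx).2.1
      have h10 : F x (Bep (ε j) h (Q j) x) ≤
          (P x * Bep (ε j) h (Q j) x * P x + (1 - P x)).det.re := hFle x _
      have h11 : (1 / ε j) ^ r * F x (Bep (ε j) h (Q j) x) * (Q j x).det.re ≤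
          (Q j x + P x * h x).det.re := by
        refine le_trans ?_ h8
        apply mul_le_mul_of_nonneg_right _ hdpos.le
        exact mul_le_mul_of_nonneg_left h10 (by positivity)
      have h12 := mul_le_mul_of_nonneg_left h11 (hκ.nonneg x)
      refine le_trans (le_of_eq ?_) h12
      ring
    have hi1 : IntegrableOn (fun x => κ x * (Q j x).det.re * F x (Bep (ε j) h (Q j) x)) T := by
      have := intk hT hte (hdQ.mul hFB)
      refine this.congr_fun (fun x _ => ?_) hT.measurableSet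
      simp [mul_assoc]
    have hi2 : IntegrableOn (fun x => κ x * (Q j x + P x * h x).det.re) T :=
      intk hT hte (contDetRe (hQc.add hβc))
    have h13 := setIntegral_mono_on (hi1.const_mul ((1 / ε j) ^ r)) hi2 hT.measurableSet hpt
    rw [integral_const_mul] at h13
    refine le_trans ?_ h13
    have h14 : (1 / ε j) ^ r * (α / 2 * vol T κ (Q j)) ≤ (1 / ε j) ^ r *
        ∫ x in T, κ x * (Q j x).det.re * F x (Bep (ε j) h (Q j) x) :=
      mul_le_mul_of_nonneg_left hnum (by positivity)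
    refine le_trans ?_ h14
    have h15 : (1 / ε j) ^ r * (α / 2 * (ε j ^ r * (p.eval 0 / 2 * (1 / 2) ^ k))) ≤
        (1 / ε j) ^ r * (α / 2 * vol T κ (Q j)) := by
      apply mul_le_mul_of_nonneg_left _ (by positivity)
      exact mul_le_mul_of_nonneg_left hvol2 (by positivity)
    refine le_trans (le_of_eq ?_) h15
    have h16 : (1 / ε j) ^ r * ε j ^ r = 1 := by
      rw [← mul_pow, one_div_mul_cancel hεj.ne', one_pow]
    rw [hc]
    linear_combination (-(p.eval 0 / 2 * (1 / 2) ^ k * (α / 2))) * h16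
  -- the limit
  obtain ⟨hr1, hr2, hr3, hr4, hr5⟩ := hRHOI T R H hD.ket.et (ketHer hD.ket)
  have hrc : ContinuousOn (rho H) T := contM fun i j => (hr1.smooth i j).continuousOn
  have hlim := volLim hT hte hrc hHc hβc (fun j => 1 + ε j * N j) ε haL hL.lim
  have hge : c ≤ ∫ x in T, κ x * (rho H x + P x * h x).det.re := by
    refine ge_of_tendsto hlim ?_
    filter_upwards [hlow] with j hj
    rw [(hRLV T R H hD.ket κ hκ (ε j) (N j) (φ j) (H' j) (Q j) (hL.eps j) (hL.fam j)
        (hL.tke j)).1 _ hchf hinv] at hj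
    exact hj
  -- the cohomology class
  obtain ⟨hu, hr6⟩ := hr5 h hD.her
  have hZ : CHF (fun x => rho H x + P x * h x) T := Pool.Agent.Helper97.HS.chf_ad hT hr1 hchf
  have hZI : InvH R (fun x => rho H x + P x * h x) := Pool.Agent.Helper97.HS.invH_ad hr2 hinv
  have hM := hMOMG T R H hD.ket κ hκ _ hZ hZI _ hu
  have hfin : ∫ x in T, κ x * (rho h x + P x * h x).det.re =
      ∫ x in T, κ x * (rho H x + P x * h x).det.re := by
    rw [← hM]
    refine setIntegral_congr_fun hT.measurableSet fun x hx => ?_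
    have h2 : rho h x + P x * h x = rho H x + P x * h x + LM (fun y => ld h y - ld H y) x := by
      rw [hr6 x hx]
      abel
    show κ x * (rho h x + P x * h x).det.re = _
    rw [h2]
  rw [hfin]
  exact lt_of_lt_of_le hcpos hge

end Pool.Agent.Helper40.RBC
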