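import Pool.Agent.Helper10.RBC.Goals

/-!
# RBC, packet RAVL: averages of continuous functions of `B_j`
-/

open Complex Metric Set Filter Topology MeasureTheory
open scoped ContDiff ComplexConjugate ComplexOrder Manifold Matrix

namespace Pool.Agent.Helper40.RBC

open Pool.Agent.Helper95.Lin Pool.Agent.Helper16.Abund Pool.Agent.Helper92.Orb
  Pool.Agent.Helper10.SP Pool.Agent.Helper95.RK Pool.Agent.Helper57.HS
  Pool.Agent.Helper15.HS Pool.Agent.Helper15.GS Pool.Agent.Helper57.RBC
  Pool.Agent.Helper10.RBC Pool.Agent.Helper95.HS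

universe u v

/-- A continuous function on a compact set of matrices: modulus of continuity. -/
theorem modul {n : ℕ} (C : Set (Cn n)) (hC : IsCompact C) (B : ℝ)
    (F : Cn n → Matrix (Fin n) (Fin n) ℂ → ℝ)
    (hF : ContinuousOn (fun q : Cn n × Matrix (Fin n) (Fin n) ℂ => F q.1 q.2) (C ×ˢ univ))
    (η : ℝ) (hη : 0 < η) : ∃ M : ℝ, 0 ≤ M ∧ ∀ x ∈ C, ∀ X Y : Matrix (Fin n) (Fin n) ℂ,
      (∀ a c, ‖X a c‖ ≤ B) → (∀ a c, ‖Y a c‖ ≤ B) →
      F x X ≤ F x Y + η + M * ∑ a, ∑ c, ‖X a c - Y a c‖ := by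
  classical
  -- work with functions Fin n → Fin n → ℂ
  let D : Set (Fin n → Fin n → ℂ) := Set.pi univ fun _ => Set.pi univ fun _ => closedBall 0 B
  have hD : IsCompact D := isCompact_univ_pi fun _ => isCompact_univ_pi fun _ =>
    isCompact_closedBall 0 B
  let G : Cn n × (Fin n → Fin n → ℂ) → ℝ := fun q => F q.1 (Matrix.of q.2)
  have hG : ContinuousOn G (C ×ˢ D) := by
    have h1 : ContinuousOn (fun q : Cn n × (Fin n → Fin n → ℂ) =>
        ((q.1, (Matrix.of q.2 : Matrix (Fin n) (Fin n) ℂ)) : Cn n × Matrix (Fin n) (Fin n) ℂ))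
        (C ×ˢ D) := by
      apply Continuous.continuousOn
      exact continuous_fst.prodMk (continuous_id.comp continuous_snd)
    exact hF.comp h1 fun q hq => ⟨hq.1, mem_univ _⟩
  have hK : IsCompact (C ×ˢ D) := hC.prod hD
  have hu := hK.uniformContinuousOn_of_continuous hG
  rw [Metric.uniformContinuousOn_iff] at hu
  obtain ⟨δ, hδ, hu⟩ := hu η hη
  obtain ⟨S, hS⟩ := hK.exists_bound_of_continuousOn hG
  refine ⟨2 * |S| / δ, by positivity, ?_⟩
  intro x hx X Y hX hY
  have hXD : (fun a c => X a c) ∈ D := by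
    intro a _ c _
    simpa using hX a c
  have hYD : (fun a c => Y a c) ∈ D := by
    intro a _ c _
    simpa using hY a c
  have hs0 : 0 ≤ ∑ a, ∑ c, ‖X a c - Y a c‖ :=
    Finset.sum_nonneg fun a _ => Finset.sum_nonneg fun c _ => norm_nonneg _
  by_cases hc : ∑ a, ∑ c, ‖X a c - Y a c‖ < δ
  · have hd : dist ((x, fun a c => X a c) : Cn n × (Fin n → Fin n → ℂ))
        (x, fun a c => Y a c) < δ := by
      rw [Prod.dist_eq]
      simp only [dist_self]
      rw [max_lt_iff]
      refine ⟨hδ, ?_⟩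
      rw [dist_pi_lt_iff hδ]
      intro a
      rw [dist_pi_lt_iff hδ]
      intro c
      rw [dist_eq_norm]
      refine lt_of_le_of_lt ?_ hc
      calc ‖X a c - Y a c‖ ≤ ∑ c, ‖X a c - Y a c‖ :=
            Finset.single_le_sum (f := fun c => ‖X a c - Y a c‖)
              (fun c _ => norm_nonneg _) (Finset.mem_univ c)
        _ ≤ ∑ a, ∑ c, ‖X a c - Y a c‖ :=
            Finset.single_le_sum (f := fun a => ∑ c, ‖X a c - Y a c‖)
              (fun a _ => Finset.sum_nonneg fun c _ => norm_nonneg _) (Finset.mem_univ a)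
    have h2 := hu _ (⟨hx, hXD⟩ : ((x, fun a c => X a c) : Cn n × (Fin n → Fin n → ℂ)) ∈ C ×ˢ D)
      _ (⟨hx, hYD⟩ : ((x, fun a c => Y a c) : Cn n × (Fin n → Fin n → ℂ)) ∈ C ×ˢ D) hd
    rw [Real.dist_eq] at h2
    have h3 : F x X - F x Y < η := lt_of_le_of_lt (le_abs_self _) h2
    have h4 : 0 ≤ 2 * |S| / δ * ∑ a, ∑ c, ‖X a c - Y a c‖ := by positivity
    linarith
  · push Not at hc
    have h1 := hS _ (⟨hx, hXD⟩ : ((x, fun a c => X a c) : Cn n × (Fin n → Fin n → ℂ)) ∈ C ×ˢ D)
    have h2 := hS _ (⟨hx, hYD⟩ : ((x, fun a c => Y a c) : Cn n × (Fin n → Fin n → ℂ)) ∈ C ×ˢ D)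
    rw [Real.norm_eq_abs] at h1 h2
    have h1' : F x X ≤ |S| := (le_abs_self _).trans (h1.trans (le_abs_self _))
    have h2' : -|S| ≤ F x Y := by
      have := neg_abs_le (F x Y)
      have h3 : |F x Y| ≤ |S| := h2.trans (le_abs_self _)
      linarith
    have h4 : 2 * |S| ≤ 2 * |S| / δ * ∑ a, ∑ c, ‖X a c - Y a c‖ := by
      rw [div_mul_eq_mul_div, le_div_iff₀ hδ]
      exact mul_le_mul_of_nonneg_left hc (by positivity)
    linarith

theorem intk {n : ℕ} {T : Set (Cn n)} (hT : IsOpen T) {κ : Cn n → ℝ} (hκ : TestF T κ)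
    {g : Cn n → ℝ} (hg : ContinuousOn g T) : IntegrableOn (fun x => κ x * g x) T := by
  have hC : IsCompact (tsupport κ) := hκ.2.1
  have h1 : IntegrableOn (fun x => κ x * g x) (tsupport κ) :=
    (hκ.1.continuous.continuousOn.mul (hg.mono hκ.2.2)).integrableOn_compact hC
  refine h1.of_forall_sdiff_eq_zero hT.measurableSet ?_
  intro x hx
  rw [image_eq_zero_of_notMem_tsupport hx.2, zero_mul]

theorem upper (h1 : S_NULL0.{u}) (h2 : S_DETI.{u}) {n : ℕ} (T : Set (Cn n)) {G : Type u} [Group G]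
    (R : G → Cn n → Cn n → Prop) (H h : Cn n → Matrix (Fin n) (Fin n) ℂ) (hD : RDat T R H h)
    (κ : Cn n → ℝ) (hκ : IsPUE T R κ) (r : ℕ) (P A : Cn n → Matrix (Fin n) (Fin n) ℂ)
    (ε N : ℕ → ℝ) (φ : ℕ → Cn n → ℝ) (H' Q : ℕ → Cn n → Matrix (Fin n) (Fin n) ℂ)
    (hL : LimA r T R κ H h P A ε N φ H' Q)
    (F : Cn n → Matrix (Fin n) (Fin n) ℂ → ℝ)
    (hF : ContinuousOn (fun q : Cn n × Matrix (Fin n) (Fin n) ℂ => F q.1 q.2) (T ×ˢ univ))
    (b : ℝ) (hb : ∀ x ∈ T, F x (A x) ≤ b) (η : ℝ) (hη : 0 < η) :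
    ∀ᶠ j in atTop, avE T κ (Q j) (fun x => F x (Bep (ε j) h (Q j) x)) ≤ b + η := by
  classical
  have hT : IsOpen T := hD.ket.et.isOpen
  have hte := hκ.test
  set C : Set (Cn n) := tsupport κ with hCdef
  have hC : IsCompact C := hte.2.1
  have hCT : C ⊆ T := hte.2.2
  obtain ⟨B₀, hB₀⟩ := hL.bB C hCT hC
  -- bound of the entries of A on C
  have hA : ∃ B₁ : ℝ, ∀ x ∈ C, ∀ a c, ‖A x a c‖ ≤ B₁ := by
    have h3 : ∀ a c, ∃ b' : ℝ, ∀ x ∈ C, ‖A x a c‖ ≤ b' := fun a c =>
      hC.exists_bound_of_continuousOn ((hL.cA a c).mono hCT)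
    choose b' hb' using h3
    refine ⟨∑ a, ∑ c, |b' a c|, fun x hx a c => ?_⟩
    refine (hb' a c x hx).trans ((le_abs_self _).trans ?_)
    calc |b' a c| ≤ ∑ c, |b' a c| := Finset.single_le_sum (f := fun c => |b' a c|)
          (fun c _ => abs_nonneg _) (Finset.mem_univ c)
      _ ≤ _ := Finset.single_le_sum (f := fun a => ∑ c, |b' a c|)
          (fun a _ => Finset.sum_nonneg fun c _ => abs_nonneg _) (Finset.mem_univ a)
  obtain ⟨B₁, hB₁⟩ := hA
  obtain ⟨M, hM0, hM⟩ := modul C hC (max B₀ B₁) F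
    (hF.mono (Set.prod_mono hCT (Subset.refl _))) (η / 2) (by linarith)
  -- bound of κ det H
  have hDH := h2 T R H hD.ket
  have hdH : ContinuousOn (fun x => (H x).det.re) T := hDH.2.1.continuousOn
  obtain ⟨K₁, hK₁⟩ := hC.exists_bound_of_continuousOn
    ((hte.1.continuous.continuousOn (s := C)).mul (hdH.mono hCT))
  -- the integrals tend to 0
  have hlim : Tendsto (fun j => M * ∑ a, ∑ c, (|K₁| * ∫ x in C, dn T κ H (Q j) x *
      ‖Bep (ε j) h (Q j) x a c - A x a c‖)) atTop (𝓝 0) := by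
    have h4 : Tendsto (fun j => M * ∑ a : Fin n, ∑ c : Fin n, (|K₁| * ∫ x in C, dn T κ H (Q j) x *
      ‖Bep (ε j) h (Q j) x a c - A x a c‖)) atTop
      (𝓝 (M * ∑ a : Fin n, ∑ c : Fin n, (|K₁| * 0))) := by
      refine Tendsto.const_mul M (tendsto_finsetSum _ fun a _ => tendsto_finsetSum _ fun c _ =>
        Tendsto.const_mul _ (hL.conv C hCT hC a c))
    simpa using h4
  have hev : ∀ᶠ j in atTop, M * ∑ a, ∑ c, (|K₁| * ∫ x in C, dn T κ H (Q j) x *
      ‖Bep (ε j) h (Q j) x a c - A x a c‖) < η / 2 :=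
    hlim.eventually_lt_const (by linarith)
  filter_upwards [hev] with j hj
  have hkQ : KEt T R (Q j) := (hL.tke j).ket
  obtain ⟨hV, -⟩ := h1 T R (Q j) hkQ κ hκ
  have hDQ := h2 T R (Q j) hkQ
  have hdQ : ContinuousOn (fun x => (Q j x).det.re) T := hDQ.2.1.continuousOn
  have hdQpos : ∀ x ∈ T, 0 < (Q j x).det.re := fun x hx => (hDQ.1 x hx).2.1
  have hdHpos : ∀ x ∈ T, 0 < (H x).det.re := fun x hx => (hDH.1 x hx).2.1
  -- continuity of B
  have hBc : ∀ a c, ContinuousOn (fun x => Bep (ε j) h (Q j) x a c) T := by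
    intro a c
    have : (fun x => Bep (ε j) h (Q j) x a c) =
        fun x => (ε j : ℂ) * ∑ k, h x a k * (Q j x)⁻¹ k c := by
      funext x
      simp [Bep, Matrix.mul_apply]
    rw [this]
    refine continuousOn_const.mul (continuousOn_finsetSum _ fun k _ => ?_)
    exact (hD.her.smooth a k).continuousOn.mul (hDQ.2.2.1 k c).continuousOn
  have hBm : ContinuousOn (fun x => (x, Bep (ε j) h (Q j) x)) T := by
    refine continuousOn_id.prodMk ?_
    refine continuousOn_pi.2 fun a => continuousOn_pi.2 fun c => hBc a c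
  have hFB : ContinuousOn (fun x => F x (Bep (ε j) h (Q j) x)) T :=
    hF.comp hBm fun x hx => ⟨hx, mem_univ _⟩
  have hno : ∀ a c, ContinuousOn (fun x => ‖Bep (ε j) h (Q j) x a c - A x a c‖) T := fun a c =>
    ((hBc a c).sub (hL.cA a c)).norm
  -- numerators
  have hden : itg T κ (Q j) (fun _ => 1) = vol T κ (Q j) := by
    unfold itg vol
    simp
  have hnum : itg T κ (Q j) (fun x => F x (Bep (ε j) h (Q j) x)) ≤ (b + η) * vol T κ (Q j) := by
    have hi1 : IntegrableOn (fun x => κ x * (Q j x).det.re * F x (Bep (ε j) h (Q j) x)) T := by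
      have := intk hT hte (hdQ.mul hFB)
      refine this.congr_fun (fun x _ => ?_) hT.measurableSet
      simp [mul_assoc]
    have hi2 : ∀ a c, IntegrableOn (fun x => κ x * (Q j x).det.re *
        ‖Bep (ε j) h (Q j) x a c - A x a c‖) T := by
      intro a c
      have := intk hT hte (hdQ.mul (hno a c))
      refine this.congr_fun (fun x _ => ?_) hT.measurableSet
      simp [mul_assoc]
    have hi3 : IntegrableOn (fun x => κ x * (Q j x).det.re) T := intk hT hte hdQ
    have hi4 : IntegrableOn (fun x => ∑ a, ∑ c, κ x * (Q j x).det.re *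
        ‖Bep (ε j) h (Q j) x a c - A x a c‖) T :=
      integrable_finsetSum _ fun a _ => integrable_finsetSum _ fun c _ => hi2 a c
    have hle : itg T κ (Q j) (fun x => F x (Bep (ε j) h (Q j) x)) ≤
        ∫ x in T, ((b + η / 2) * (κ x * (Q j x).det.re) +
          M * ∑ a, ∑ c, κ x * (Q j x).det.re * ‖Bep (ε j) h (Q j) x a c - A x a c‖) := by
      unfold itg
      refine setIntegral_mono_on hi1 ((hi3.const_mul _).add (hi4.const_mul _))
        hT.measurableSet ?_
      intro x hx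
      by_cases hxC : x ∈ C
      · have h5 := hM x hxC (Bep (ε j) h (Q j) x) (A x)
          (fun a c => (hB₀ j x hxC a c).trans (le_max_left _ _))
          (fun a c => (hB₁ x hxC a c).trans (le_max_right _ _))
        have h6 := hb x hx
        have h7 : 0 ≤ κ x * (Q j x).det.re := mul_nonneg (hκ.nonneg x) (hdQpos x hx).le
        have h8 : F x (Bep (ε j) h (Q j) x) ≤ (b + η / 2) +
            M * ∑ a, ∑ c, ‖Bep (ε j) h (Q j) x a c - A x a c‖ := by linarith
        have h9 := mul_le_mul_of_nonneg_left h8 h7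
        refine h9.trans (le_of_eq ?_)
        have : ∑ a, ∑ c, κ x * (Q j x).det.re * ‖Bep (ε j) h (Q j) x a c - A x a c‖ =
            κ x * (Q j x).det.re * ∑ a, ∑ c, ‖Bep (ε j) h (Q j) x a c - A x a c‖ := by
          rw [Finset.mul_sum]
          refine Finset.sum_congr rfl fun a _ => ?_
          rw [Finset.mul_sum]
        rw [this]
        ring
      · have hk0 : κ x = 0 := image_eq_zero_of_notMem_tsupport hxC
        simp [hk0]
    refine hle.trans ?_
    rw [integral_add (hi3.const_mul _) (hi4.const_mul _), integral_const_mul, integral_const_mul,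
      integral_finsetSum _ fun a _ => integrable_finsetSum _ fun c _ => hi2 a c]
    have hsum : ∑ a, ∫ x in T, ∑ c, κ x * (Q j x).det.re *
        ‖Bep (ε j) h (Q j) x a c - A x a c‖ =
        ∑ a, ∑ c, ∫ x in T, κ x * (Q j x).det.re * ‖Bep (ε j) h (Q j) x a c - A x a c‖ := by
      refine Finset.sum_congr rfl fun a _ => ?_
      rw [integral_finsetSum _ fun c _ => hi2 a c]
    rw [hsum]
    -- compare with the integrals over C
    have hcmp : ∀ a c, ∫ x in T, κ x * (Q j x).det.re * ‖Bep (ε j) h (Q j) x a c - A x a c‖ ≤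
        vol T κ (Q j) * (|K₁| * ∫ x in C, dn T κ H (Q j) x *
          ‖Bep (ε j) h (Q j) x a c - A x a c‖) := by
      intro a c
      have h10 : ∫ x in T, κ x * (Q j x).det.re * ‖Bep (ε j) h (Q j) x a c - A x a c‖ =
          ∫ x in C, κ x * (Q j x).det.re * ‖Bep (ε j) h (Q j) x a c - A x a c‖ := by
        refine (setIntegral_eq_of_subset_of_forall_sdiff_eq_zero hT.measurableSet hCT ?_)
        intro x hx
        have hk0 : κ x = 0 := image_eq_zero_of_notMem_tsupport hx.2
        simp [hk0]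
      rw [h10, ← integral_const_mul, ← integral_const_mul]
      have hdn : ContinuousOn (fun x => dn T κ H (Q j) x) C := by
        unfold dn
        refine (hdQ.mono hCT).div (continuousOn_const.mul (hdH.mono hCT)) ?_
        intro x hx
        exact (mul_pos hV (hdHpos x (hCT hx))).ne'
      refine setIntegral_mono_on ((hi2 a c).mono_set hCT) ?_ hC.measurableSet ?_
      · exact (continuousOn_const.mul (continuousOn_const.mul
          (hdn.mul ((hno a c).mono hCT)))).integrableOn_compact hC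
      · intro x hx
        have hxT := hCT hx
        have hd1 : (Q j x).det.re = vol T κ (Q j) * (H x).det.re * dn T κ H (Q j) x := by
          unfold dn
          field_simp [hV.ne', (hdHpos x hxT).ne']
        have hdn0 : 0 ≤ dn T κ H (Q j) x := by
          unfold dn
          exact div_nonneg (hdQpos x hxT).le (mul_pos hV (hdHpos x hxT)).le
        have hK : κ x * (H x).det.re ≤ |K₁| := by
          have := hK₁ x hx
          rw [Real.norm_eq_abs] at this
          exact (le_abs_self _).trans (this.trans (le_abs_self _))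
        have hn0 : 0 ≤ ‖Bep (ε j) h (Q j) x a c - A x a c‖ := norm_nonneg _
        rw [hd1]
        have : κ x * (vol T κ (Q j) * (H x).det.re * dn T κ H (Q j) x) *
            ‖Bep (ε j) h (Q j) x a c - A x a c‖ =
            (κ x * (H x).det.re) * (vol T κ (Q j) * (dn T κ H (Q j) x *
              ‖Bep (ε j) h (Q j) x a c - A x a c‖)) := by ring
        rw [this]
        have h11 : 0 ≤ vol T κ (Q j) * (dn T κ H (Q j) x *
              ‖Bep (ε j) h (Q j) x a c - A x a c‖) :=
          mul_nonneg hV.le (mul_nonneg hdn0 hn0)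
        refine (mul_le_mul_of_nonneg_right hK h11).trans (le_of_eq ?_)
        ring
    have hfin : ∑ a, ∑ c, ∫ x in T, κ x * (Q j x).det.re *
        ‖Bep (ε j) h (Q j) x a c - A x a c‖ ≤ vol T κ (Q j) * ∑ a, ∑ c, (|K₁| *
          ∫ x in C, dn T κ H (Q j) x * ‖Bep (ε j) h (Q j) x a c - A x a c‖) := by
      rw [Finset.mul_sum]
      refine Finset.sum_le_sum fun a _ => ?_
      rw [Finset.mul_sum]
      exact Finset.sum_le_sum fun c _ => hcmp a c
    have hvv : ∫ x in T, κ x * (Q j x).det.re = vol T κ (Q j) := rfl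
    rw [hvv]
    have h12 := mul_le_mul_of_nonneg_left hfin hM0
    have h13 : M * (vol T κ (Q j) * ∑ a, ∑ c, (|K₁| *
          ∫ x in C, dn T κ H (Q j) x * ‖Bep (ε j) h (Q j) x a c - A x a c‖)) ≤
        vol T κ (Q j) * (η / 2) := by
      have : M * (vol T κ (Q j) * ∑ a, ∑ c, (|K₁| *
          ∫ x in C, dn T κ H (Q j) x * ‖Bep (ε j) h (Q j) x a c - A x a c‖)) =
          vol T κ (Q j) * (M * ∑ a, ∑ c, (|K₁| *
          ∫ x in C, dn T κ H (Q j) x * ‖Bep (ε j) h (Q j) x a c - A x a c‖)) := by ring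
      rw [this]
      exact mul_le_mul_of_nonneg_left hj.le hV.le
    nlinarith
  unfold avE
  rw [hden, div_le_iff₀ hV]
  exact hnum

/-- RAVL. -/
theorem ravl (h1 : S_NULL0.{u}) (h2 : S_DETI.{u}) : S_RAVL.{u} := by
  intro n T G _ R H h hD κ hκ r P A ε N φ H' Q hL F hF a b hab η hη
  have hup := upper h1 h2 T R H h hD κ hκ r P A ε N φ H' Q hL F hF b
    (fun x hx => (hab x hx).2) η hη
  have hlo := upper h1 h2 T R H h hD κ hκ r P A ε N φ H' Q hL (fun x X => - F x X) hF.neg (-a)
    (fun x hx => neg_le_neg (hab x hx).1) η hη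
  filter_upwards [hup, hlo] with j hj1 hj2
  refine ⟨?_, hj1⟩
  have h3 : avE T κ (Q j) (fun x => - F x (Bep (ε j) h (Q j) x)) =
      - avE T κ (Q j) (fun x => F x (Bep (ε j) h (Q j) x)) := by
    unfold avE itg
    rw [← neg_div, ← integral_neg]
    congr 1
    refine integral_congr_ae (ae_of_all _ fun x => ?_)
    simp
  rw [h3] at hj2
  linarith

end Pool.Agent.Helper40.RBC
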